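import Pool.Agent.Lib.MP_5349a4_pr.M.Iface2
import Pool.Agent.Lib.MP_5349a4_pr.M.Base

/-!
# Module COMPAR: comparison with a strict supersolution
-/

set_option autoImplicit false
open MeasureTheory Set
open scoped ENNReal NNReal

namespace Pool.Agent.Lib.MP_5349a4_pr.H78

theorem compar : ComparStatement := by
  intro d D Φ F a k g b M m hg hg1 hm hΦ hF hsub hsup ha x₀ hx₀
  set c : ℝ≥0∞ := ⨆ x ∈ D, Φ x / F x with hc
  have hm0 : (m : ℝ≥0∞) ≠ 0 := by exact_mod_cast hm.ne'
  have hF0 : ∀ x ∈ D, F x ≠ 0 := fun x hx h => by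
    have := (hF x hx).1
    rw [h] at this
    exact hm0 (le_antisymm this zero_le)
  have hle : ∀ x ∈ D, Φ x ≤ c * F x := by
    intro x hx
    rw [← ENNReal.div_le_iff (hF0 x hx) (hF x hx).2]
    exact le_iSup₂ (f := fun x (_ : x ∈ D) => Φ x / F x) x hx
  have hcM : c ≤ M / m := by
    apply iSup₂_le
    intro x hx
    exact ENNReal.div_le_div (hΦ x hx) (hF x hx).1
  have hctop : c ≠ ∞ := ne_top_of_le_ne_top (ENNReal.div_ne_top ENNReal.coe_ne_top hm0) hcM
  have hstep : c ≤ b + (1 - g : ℝ≥0) * c := by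
    apply iSup₂_le
    intro x hx
    rw [ENNReal.div_le_iff (hF0 x hx) (hF x hx).2]
    calc Φ x ≤ a x + ∫⁻ y, k x y * (ind (x + y ∈ D) * Φ (x + y)) := hsub x hx
      _ ≤ b * F x + ∫⁻ y, c * (k x y * (ind (x + y ∈ D) * F (x + y))) := by
          refine add_le_add (ha x hx) (lintegral_mono fun y => ?_)
          by_cases hy : x + y ∈ D
          · rw [ind_of hy, one_mul, one_mul]
            calc k x y * Φ (x + y) ≤ k x y * (c * F (x + y)) := mul_le_mul_right (hle _ hy) _
              _ = c * (k x y * F (x + y)) := by ring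
          · rw [ind_not hy, zero_mul, zero_mul, mul_zero]
            exact zero_le
      _ = b * F x + c * ∫⁻ y, k x y * (ind (x + y ∈ D) * F (x + y)) := by
          rw [lintegral_const_mul' _ _ hctop]
      _ ≤ b * F x + c * ((1 - g : ℝ≥0) * F x) := by
          gcongr
          exact hsup x hx
      _ = (b + (1 - g : ℝ≥0) * c) * F x := by ring
  lift c to ℝ≥0 using hctop with c' hc'
  have h1 : c' ≤ b + (1 - g) * c' := by exact_mod_cast hstep
  have h2 : c' ≤ b / g := by
    rw [le_div_iff₀ hg]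
    have h3 : (c' : ℝ) ≤ b + (1 - g) * c' := by
      have : ((1 - g : ℝ≥0) : ℝ) = 1 - g := by
        rw [NNReal.coe_sub hg1]
        rfl
      rw [← this]
      exact_mod_cast h1
    have h4 : (c' : ℝ) * g ≤ b := by linarith
    exact_mod_cast h4
  calc Φ x₀ ≤ c' * F x₀ := hle x₀ hx₀
    _ ≤ ((b / g : ℝ≥0) : ℝ≥0∞) * F x₀ := by
        gcongr

end Pool.Agent.Lib.MP_5349a4_pr.H78
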