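import Pool.Agent.Lib.MP_5349a4_pr.M.Iface2
import Pool.Agent.Lib.MP_5349a4_pr.M.Base

/-!
# Module ROT: moments of a rotation invariant density
-/

set_option autoImplicit false
open MeasureTheory Set
open scoped ENNReal NNReal

namespace Pool.Agent.Lib.MP_5349a4_pr.H78

lemma lintegral_iso {d : ℕ} (e : Eu d ≃ₗᵢ[ℝ] Eu d) (f : Eu d → ℝ≥0∞) :
    ∫⁻ y, f (e y) = ∫⁻ y, f y :=
  (e.measurePreserving).lintegral_comp_emb e.toHomeomorph.measurableEmbedding f

theorem rot : RotStatement := by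
  intro d hd w hw hinv u hu
  constructor
  · have key : ∀ v : Eu d, ‖v‖ = 1 → ∫⁻ y, w y * ENNReal.ofReal ((inner ℝ y v) ^ 2) =
        ∫⁻ y, w y * ENNReal.ofReal ((inner ℝ y u) ^ 2) := by
      intro v hv
      set e : Eu d ≃ₗᵢ[ℝ] Eu d := (Submodule.span ℝ {v - u})ᗮ.reflection with he
      have hev : e v = u := Submodule.reflection_sub (by rw [hv, hu])
      rw [← lintegral_iso e (fun y => w y * ENNReal.ofReal ((inner ℝ y u) ^ 2))]
      apply lintegral_congr
      intro y
      rw [hinv e y, ← hev, LinearIsometryEquiv.inner_map_map]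
    set bs := EuclideanSpace.basisFun (Fin d) ℝ with hbs
    have h1 : ∑ i : Fin d, ∫⁻ y, w y * ENNReal.ofReal ((inner ℝ y (bs i)) ^ 2) =
        (d : ℝ≥0∞) * ∫⁻ y, w y * ENNReal.ofReal ((inner ℝ y u) ^ 2) := by
      rw [Finset.sum_congr rfl fun i _ => key (bs i) (bs.orthonormal.1 i), Finset.sum_const,
        Finset.card_univ, Fintype.card_fin, nsmul_eq_mul]
    rw [← h1, ← lintegral_finsetSum]
    · apply lintegral_congr
      intro y
      rw [← Finset.mul_sum, ← ENNReal.ofReal_sum_of_nonneg (fun i _ => sq_nonneg _),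
        bs.sum_sq_inner_left]
    · intro i _
      fun_prop
  · rw [← lintegral_iso (LinearIsometryEquiv.neg ℝ) (fun y => w y * ENNReal.ofReal (inner ℝ y u))]
    apply lintegral_congr
    intro y
    rw [hinv (LinearIsometryEquiv.neg ℝ) y]
    simp

end Pool.Agent.Lib.MP_5349a4_pr.H78
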