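import Pool.Agent.Lib.MP_5349a4_pr.M.Iface3
import Pool.Agent.Lib.MP_5349a4_pr.M.Base

/-!
# SECM: first and second moment of the cluster in a ball at criticality
-/

set_option autoImplicit false
open MeasureTheory Set
open scoped ENNReal NNReal

namespace Pool.Agent.Lib.MP_5349a4_pr.H78

theorem Crit.one_le {d : ℕ} {lam : ℝ≥0} {κ : ℕ} {A : ℝ≥0} (hC : Crit d lam κ A) : 1 ≤ d := by
  have h1 := hC.hd
  have h2 := hC.hκ
  have h3 : 1 ≤ κ ^ 2 := Nat.one_le_pow _ _ h2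
  omega

section
variable {d : ℕ}

theorem secm_pt (hT : TauFacts d) (lam : ℝ≥0) (R : ℝ) (hR : 1 ≤ R)
    (hsup : ∀ (s : ℕ), ∀ y : Eu d, ex lam (s : ℝ) y ≠ 0 → (s : ℝ) < ‖y‖ ∧ ‖y‖ ≤ (s : ℝ) + 1)
    (y : Eu d) : ∑ s ∈ Finset.range ⌊R⌋₊, ex lam (s : ℝ) y
        ≤ ind (y ∈ bal (0 : Eu d) R) * (lam * tau lam (bal 0 R) 0 y) := by
  have hDom := dom_bal (0 : Eu d) R
  have hn : ((⌊R⌋₊ : ℕ) : ℝ) ≤ R := Nat.floor_le (by linarith)
  by_cases hall : ∀ s ∈ Finset.range ⌊R⌋₊, ex lam (s : ℝ) y = 0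
  · rw [Finset.sum_eq_zero hall]; exact zero_le
  · push Not at hall
    obtain ⟨s0, hs0, hne⟩ := hall
    have hy := hsup s0 y hne
    have hlt : s0 + 1 ≤ ⌊R⌋₊ := Finset.mem_range.1 hs0
    have hlt' : (s0 : ℝ) + 1 ≤ R := by
      have : ((s0 + 1 : ℕ) : ℝ) ≤ (⌊R⌋₊ : ℝ) := by exact_mod_cast hlt
      push_cast at this
      linarith
    rw [Finset.sum_eq_single s0]
    · have hyR : y ∈ bal (0 : Eu d) R := by
        unfold bal
        rw [Metric.mem_closedBall, dist_zero_right]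
        linarith
      rw [ind_of hyR, one_mul]
      unfold ex
      calc (lam : ℝ≥0∞) * tau lam (bal 0 (s0 : ℝ)) 0 y * ind ((s0 : ℝ) < ‖y‖)
          ≤ lam * tau lam (bal 0 (s0 : ℝ)) 0 y * 1 := by
            gcongr; exact ind_le_one _
        _ = lam * tau lam (bal 0 (s0 : ℝ)) 0 y := mul_one _
        _ ≤ lam * tau lam (bal 0 R) 0 y := by
            gcongr
            apply hT.mono lam _ _ _ _ (dom_bal _ _) hDom
            exact Metric.closedBall_subset_closedBall (by linarith)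
    · intro s _ hss
      by_contra hne'
      have hy' := hsup s y hne'
      apply hss
      have h1 : (s : ℝ) < (s0 : ℝ) + 1 := by linarith
      have h2 : (s0 : ℝ) < (s : ℝ) + 1 := by linarith
      have h1' : s < s0 + 1 := by exact_mod_cast h1
      have h2' : s0 < s + 1 := by exact_mod_cast h2
      omega
    · intro h; exact absurd hs0 h

theorem secm_a1 (R : ℝ) (hR : 1 ≤ R) :
    ENNReal.ofReal (R / 2) ≤ ENNReal.ofReal ((⌊R⌋₊ : ℕ) : ℝ) := by
  have hn1 : 1 ≤ ⌊R⌋₊ := by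
    rw [Nat.one_le_floor_iff]; exact hR
  have hn2 : R < (⌊R⌋₊ : ℝ) + 1 := Nat.lt_floor_add_one R
  apply ENNReal.ofReal_le_ofReal
  have : (1 : ℝ) ≤ (⌊R⌋₊ : ℝ) := by exact_mod_cast hn1
  linarith

theorem secm_a2 (R : ℝ) :
    ENNReal.ofReal ((⌊R⌋₊ : ℕ) : ℝ) = ∑ _s ∈ Finset.range ⌊R⌋₊, (1 : ℝ≥0∞) := by
  rw [ENNReal.ofReal_natCast]; simp

theorem secm_a4 (lam : ℝ≥0) (n : ℕ)
    (hsup : ∀ (s : ℕ), Measurable (ex lam (s : ℝ) : Eu d → ℝ≥0∞)) :
    ∑ s ∈ Finset.range n, phi d lam (s : ℝ)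
      = ∫⁻ y : Eu d, ∑ s ∈ Finset.range n, ex lam (s : ℝ) y :=
  (lintegral_finsetSum (Finset.range n) (f := fun s : ℕ => ex lam (s : ℝ))
    (fun s _ => hsup s)).symm

theorem secm_a6 (hT : TauFacts d) (lam : ℝ≥0) (R : ℝ) (hDom : Dom (bal (0 : Eu d) R)) :
    Measurable fun y => tau lam (bal (0 : Eu d) R) 0 y := by
  have h := (hT.meas lam _ hDom).comp (measurable_prodMk_left (x := (0 : Eu d)))
  exact h

theorem secm_a5 (lam : ℝ≥0) (R : ℝ) (hDom : Dom (bal (0 : Eu d) R))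
    (hm : Measurable fun y => tau lam (bal (0 : Eu d) R) 0 y) :
    ∫⁻ y : Eu d, ind (y ∈ bal (0 : Eu d) R) * (lam * tau lam (bal 0 R) 0 y)
      = lam * ∫⁻ y in bal (0 : Eu d) R, tau lam (bal 0 R) 0 y := by
  rw [lintegral_mul_ind hDom.1 (fun y => lam * tau lam (bal 0 R) 0 y),
    lintegral_const_mul _ hm]

theorem secm_sum (hT : TauFacts d) (lam : ℝ≥0) (R : ℝ) (hR : 1 ≤ R)
    (hsup : ∀ (s : ℕ), Measurable (ex lam (s : ℝ) : Eu d → ℝ≥0∞) ∧
        ∀ y : Eu d, ex lam (s : ℝ) y ≠ 0 → (s : ℝ) < ‖y‖ ∧ ‖y‖ ≤ (s : ℝ) + 1)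
    (hphi : ∀ s : ℕ, 1 ≤ phi d lam (s : ℝ)) :
    ENNReal.ofReal (R / 2) ≤ lam * ∫⁻ y in bal (0 : Eu d) R, tau lam (bal 0 R) 0 y := by
  have hDom := dom_bal (0 : Eu d) R
  rw [← secm_a5 lam R hDom (secm_a6 hT lam R hDom)]
  refine (secm_a1 R hR).trans ?_
  rw [secm_a2 R]
  have h3 : ∑ _s ∈ Finset.range ⌊R⌋₊, (1 : ℝ≥0∞)
      ≤ ∑ s ∈ Finset.range ⌊R⌋₊, phi d lam (s : ℝ) := by
    apply Finset.sum_le_sum
    intro s _
    exact hphi s
  refine h3.trans ?_
  rw [secm_a4 lam _ (fun s => (hsup s).1)]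
  apply lintegral_mono
  intro y
  exact secm_pt hT lam R hR (fun s => (hsup s).2) y

theorem tau_far (hT : TauFacts d) (lam : ℝ≥0) (R : ℝ) (hR : 1 ≤ R) (b : Eu d) (hb : 2 * R < ‖b‖)
    (y : Eu d) (hy : y ∈ bal (0 : Eu d) R) : tau lam (bal 0 R) b y = 0 := by
  have hDom := dom_bal (0 : Eu d) R
  have hyR : ‖y‖ ≤ R := by
    have := Metric.mem_closedBall.1 hy
    rwa [dist_zero_right] at this
  have hdist : ∀ z : Eu d, ‖z‖ ≤ R → 1 < dist z b := by
    intro z hz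
    have : ‖b‖ ≤ ‖z‖ + dist z b := by
      rw [dist_eq_norm]
      calc ‖b‖ = ‖z - (z - b)‖ := by congr 1; abel
        _ ≤ ‖z‖ + ‖z - b‖ := norm_sub_le _ _
    linarith
  rw [hT.symm lam _ b y hDom]
  apply le_antisymm _ zero_le
  refine (hT.union lam _ y b hDom).trans ?_
  have e1 : ind (dist y b ≤ 1) = 0 := ind_not (by linarith [hdist y hyR])
  have e2 : bal (0 : Eu d) R ∩ bal b 1 = ∅ := by
    ext z
    simp only [mem_inter_iff, mem_empty_iff_false, iff_false, not_and]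
    intro hz hzb
    have hzR : ‖z‖ ≤ R := by
      have := Metric.mem_closedBall.1 hz
      rwa [dist_zero_right] at this
    have := Metric.mem_closedBall.1 hzb
    linarith [hdist z hzR]
  rw [e1, e2]
  simp

theorem secm_X {lam : ℝ≥0} {κ : ℕ} {A : ℝ≥0} (hC : Crit d lam κ A) (hT : TauFacts d)
    (R : ℝ) (hR : 1 ≤ R) (b : Eu d) :
    1 + lam * ∫⁻ y in bal (0 : Eu d) R, tau lam (bal 0 R) b y
      ≤ A * ENNReal.ofReal ((2 * R) ^ κ) := by
  have hDom := dom_bal (0 : Eu d) R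
  by_cases hb : ‖b‖ ≤ 2 * R
  · have h := hC.a1 (bal 0 R) b 0 (2 * R) hDom (by linarith)
    refine le_trans ?_ h
    show _ ≤ ind (b ∈ bal (0 : Eu d) (2 * R)) + lam * ∫⁻ y in bal (0 : Eu d) R,
      tau lam (bal 0 R) b y * ind (y ∈ bal (0 : Eu d) (2 * R))
    have e1 : ind (b ∈ bal (0 : Eu d) (2 * R)) = 1 := by
      apply ind_of
      unfold bal
      rw [Metric.mem_closedBall, dist_zero_right]
      exact hb
    rw [e1]
    apply le_of_eq
    congr 2
    apply setLIntegral_congr_fun hDom.1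
    intro y hy
    have e2 : ind (y ∈ bal (0 : Eu d) (2 * R)) = 1 := by
      apply ind_of
      exact Metric.closedBall_subset_closedBall (by linarith) hy
    show tau lam (bal 0 R) b y = tau lam (bal 0 R) b y * ind (y ∈ bal (0 : Eu d) (2 * R))
    rw [e2, mul_one]
  · push Not at hb
    have hz : ∫⁻ y in bal (0 : Eu d) R, tau lam (bal 0 R) b y = 0 := by
      rw [setLIntegral_congr_fun (g := fun _ => 0) hDom.1]
      · simp
      · intro y hy
        exact tau_far hT lam R hR b hb y hy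
    rw [hz, mul_zero, add_zero]
    have h1 : (1 : ℝ≥0∞) ≤ A := by exact_mod_cast hC.hA
    have h2 : (1 : ℝ≥0∞) ≤ ENNReal.ofReal ((2 * R) ^ κ) := by
      rw [← ENNReal.ofReal_one]
      apply ENNReal.ofReal_le_ofReal
      exact one_le_pow₀ (by linarith)
    calc (1 : ℝ≥0∞) = 1 * 1 := (one_mul 1).symm
      _ ≤ A * ENNReal.ofReal ((2 * R) ^ κ) := by gcongr

end

theorem secm (hSec : SecStatement) (hCamp : CampStatement) (hTauF : TauFStatement)
    (hSlb : SlbStatement) : SecMStatement := by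
  intro d lam κ A hC R hR
  have hd : 1 ≤ d := Crit.one_le hC
  have hT := hTauF d hd
  have hDom := dom_bal (0 : Eu d) R
  have : IsFiniteMeasure (leb lam (bal (0 : Eu d) R)) := finite_leb lam hDom.2
  have : NullSingletonClass (leb lam (bal (0 : Eu d) R)) := noAtoms_leb hd lam _
  constructor
  · have h := hCamp (Eu d) (leb lam (bal (0 : Eu d) R)) (ad 1) (fun _ => 1) 0 (madj_ad 1)
      measurable_const
    have e1 : ∫⁻ ω, cnt (ad 1) (pt ω) 0 ∂PL (leb lam (bal (0 : Eu d) R))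
        = ∫⁻ ω, ∑' p : (pt ω : Set (Eu d)), ind (Con (ad 1) (pt ω) (0 : Eu d) p) * 1
          ∂PL (leb lam (bal (0 : Eu d) R)) := by
      apply lintegral_congr
      intro ω
      unfold cnt
      simp only [mul_one]
    rw [e1, h, lintegral_leb]
    simp only [mul_one]
    refine secm_sum hT lam R hR ?_ ?_
    · intro s
      have h := (hSlb d hd hT).2.1 lam (s : ℝ) (Nat.cast_nonneg s)
      exact ⟨h.1, h.2.2⟩
    · intro s
      exact hC.a3 s (Nat.cast_nonneg s)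
  · refine hSec (Eu d) (leb lam (bal (0 : Eu d) R)) (ad 1) _ 0 (madj_ad 1) (ad_symm 1) ?_
    intro b
    rw [lintegral_leb]
    exact secm_X hC hT R hR b

end Pool.Agent.Lib.MP_5349a4_pr.H78
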